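import Pool.Agent.Helper76.CQ.Defs

/-!
# Project CQ, piece 7c: `slope_ratio` (with `slope_root`, `slope_irreducible`)
-/

set_option autoImplicit false

namespace Pool.Agent.Helper57.CQ

open MvPolynomial Pool.Agent.Helper76.CY Pool.Agent.Helper76.CQ Filter Topology

/-- A sum of strictly dominated terms. -/
private lemma norm_sum_lt {ι : Type*} (t : Finset ι) (f : ι → PadicAlgCl 2) {c : ℝ} (hc : 0 < c)
    (h : ∀ i ∈ t, ‖f i‖ < c) : ‖∑ i ∈ t, f i‖ < c := by
  rcases t.eq_empty_or_nonempty with rfl | hne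
  · simpa using hc
  · obtain ⟨i, hi, hle⟩ := IsUltrametricDist.exists_norm_finsetSum_le_of_nonempty hne f
    exact hle.trans_lt (h i hi)

private lemma norm_coe (x : ℚ_[2]) : ‖algebraMap ℚ_[2] (PadicAlgCl 2) x‖ = ‖x‖ :=
  PadicAlgCl.norm_extends 2 x

private lemma root_eq {s : ℕ} {χ : Polynomial ℚ_[2]} (hχ : Slope s χ) (z : PadicAlgCl 2)
    (hz : Polynomial.aeval z χ = 0) :
    ∑ i ∈ Finset.range 10, algebraMap ℚ_[2] (PadicAlgCl 2) (χ.coeff (i + 1)) * z ^ (i + 1) +
      algebraMap ℚ_[2] (PadicAlgCl 2) (χ.coeff 0) + z ^ 11 = 0 := by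
  rw [Polynomial.aeval_eq_sum_range' (n := 12) (by rw [hχ.deg]; norm_num),
    Finset.sum_range_succ, Finset.sum_range_succ'] at hz
  have h11 : χ.coeff 11 = 1 := by
    have := hχ.monic
    rwa [Polynomial.Monic, Polynomial.leadingCoeff, hχ.deg] at this
  simp only [Algebra.smul_def, h11, map_one, one_mul, pow_zero, mul_one] at hz
  exact hz

private lemma coef_le {s : ℕ} {χ : Polynomial ℚ_[2]} (hχ : Slope s χ) {i : ℕ} (hi : i < 11)
    {r : ℝ} (hr : 0 ≤ r) : (‖χ.coeff i‖ * r ^ i) ^ 11 ≤ ((1 / 2 : ℝ) ^ s) ^ (11 - i) *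
      (r ^ 11) ^ i := by
  rw [mul_pow, ← pow_mul, ← pow_mul, ← pow_mul, mul_comm i 11]
  exact mul_le_mul_of_nonneg_right (hχ.le i hi) (pow_nonneg hr _)

theorem slope_root {s : ℕ} {χ : Polynomial ℚ_[2]} (hχ : Slope s χ) (z : PadicAlgCl 2)
    (hz : Polynomial.aeval z χ = 0) : ‖z‖ ^ 11 = (1 / 2 : ℝ) ^ s := by
  have hq : 0 < (1 / 2 : ℝ) ^ s := by positivity
  set q : ℝ := (1 / 2 : ℝ) ^ s with hqd
  have he := root_eq hχ z hz
  have hz0 : 0 ≤ ‖z‖ := norm_nonneg z
  by_contra hne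
  rcases lt_or_gt_of_ne hne with h | h
  · have h1 : ‖∑ i ∈ Finset.range 10,
        algebraMap ℚ_[2] (PadicAlgCl 2) (χ.coeff (i + 1)) * z ^ (i + 1)‖ < q := by
      refine norm_sum_lt _ _ hq fun i hi => ?_
      have hi' : i + 1 < 11 := by have := Finset.mem_range.1 hi; omega
      rw [norm_mul, norm_pow, norm_coe]
      refine lt_of_pow_lt_pow_left₀ 11 hq.le ((coef_le hχ hi' hz0).trans_lt ?_)
      calc q ^ (11 - (i + 1)) * (‖z‖ ^ 11) ^ (i + 1)
          < q ^ (11 - (i + 1)) * q ^ (i + 1) := by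
            refine mul_lt_mul_of_pos_left ?_ (pow_pos hq _)
            exact pow_lt_pow_left₀ h (pow_nonneg hz0 _) (by omega)
        _ = q ^ 11 := by rw [← pow_add]; congr 1; omega
    have h2 : ‖∑ i ∈ Finset.range 10,
        algebraMap ℚ_[2] (PadicAlgCl 2) (χ.coeff (i + 1)) * z ^ (i + 1) + z ^ 11‖ < q := by
      refine (IsUltrametricDist.norm_add_le_max _ _).trans_lt (max_lt h1 ?_)
      rw [norm_pow]
      exact h
    have h3 : ∑ i ∈ Finset.range 10,
        algebraMap ℚ_[2] (PadicAlgCl 2) (χ.coeff (i + 1)) * z ^ (i + 1) + z ^ 11 =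
        -algebraMap ℚ_[2] (PadicAlgCl 2) (χ.coeff 0) := by linear_combination he
    rw [h3, norm_neg, norm_coe, hχ.zero] at h2
    exact lt_irrefl _ h2
  · have hp : 0 < ‖z‖ ^ 11 := hq.trans h
    have key : ∀ i < 11, ‖algebraMap ℚ_[2] (PadicAlgCl 2) (χ.coeff i) * z ^ i‖ < ‖z‖ ^ 11 := by
      intro i hi
      rw [norm_mul, norm_pow, norm_coe]
      refine lt_of_pow_lt_pow_left₀ 11 hp.le ((coef_le hχ hi hz0).trans_lt ?_)
      calc q ^ (11 - i) * (‖z‖ ^ 11) ^ i < (‖z‖ ^ 11) ^ (11 - i) * (‖z‖ ^ 11) ^ i := by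
            refine mul_lt_mul_of_pos_right ?_ (pow_pos hp _)
            exact pow_lt_pow_left₀ h hq.le (by omega)
        _ = (‖z‖ ^ 11) ^ 11 := by rw [← pow_add]; congr 1; omega
    have h1 : ‖∑ i ∈ Finset.range 10,
        algebraMap ℚ_[2] (PadicAlgCl 2) (χ.coeff (i + 1)) * z ^ (i + 1)‖ < ‖z‖ ^ 11 :=
      norm_sum_lt _ _ hp fun i hi => key _ (by have := Finset.mem_range.1 hi; omega)
    have h2 : ‖∑ i ∈ Finset.range 10,
        algebraMap ℚ_[2] (PadicAlgCl 2) (χ.coeff (i + 1)) * z ^ (i + 1) +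
        algebraMap ℚ_[2] (PadicAlgCl 2) (χ.coeff 0)‖ < ‖z‖ ^ 11 := by
      refine (IsUltrametricDist.norm_add_le_max _ _).trans_lt (max_lt h1 ?_)
      have := key 0 (by norm_num)
      rwa [pow_zero, mul_one] at this
    rw [eq_neg_of_add_eq_zero_left he, norm_neg, norm_pow] at h2
    exact lt_irrefl _ h2

private lemma dvd_of_norm {c : ℚ_[2]} {m : ℕ} (h : ‖c‖ ^ 11 = (1 / 2 : ℝ) ^ m) : 11 ∣ m := by
  have hc : c ≠ 0 := by
    rintro rfl
    rw [norm_zero, zero_pow (by norm_num)] at h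
    exact absurd h.symm (by positivity)
  rw [Padic.norm_eq_zpow_neg_valuation hc] at h
  have h1 : ((2 : ℕ) : ℝ) = 2 := by norm_num
  rw [h1, ← zpow_natCast, ← zpow_mul, one_div, inv_pow, ← zpow_natCast, ← zpow_neg] at h
  have h2 := zpow_right_injective₀ (by norm_num : (0 : ℝ) < 2) (by norm_num) h
  push_cast at h2
  omega

private lemma dvd_deg {s : ℕ} (hs : ¬ 11 ∣ s) {χ : Polynomial ℚ_[2]} (hχ : Slope s χ)
    (g : Polynomial ℚ_[2]) (hg : g.Monic) (hd : g ∣ χ) : 11 ∣ g.natDegree := by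
  set G := g.map (algebraMap ℚ_[2] (PadicAlgCl 2)) with hG
  have hGm : G.Monic := hg.map _
  have hsp : G.Splits := IsAlgClosed.splits G
  have h0 := hsp.coeff_zero_eq_prod_roots_of_monic hGm
  have hcard : G.roots.card = G.natDegree := Polynomial.splits_iff_card_roots.1 hsp
  have hdeg : G.natDegree = g.natDegree := hg.natDegree_map _
  have hroots : ∀ z ∈ G.roots, ‖z‖ ^ 11 = (1 / 2 : ℝ) ^ s := by
    intro z hz
    refine slope_root hχ z ?_
    obtain ⟨k, rfl⟩ := hd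
    rw [Polynomial.mem_roots hGm.ne_zero, Polynomial.IsRoot.def, hG,
      Polynomial.eval_map_algebraMap] at hz
    rw [map_mul, hz, zero_mul]
  have hprod : ∀ m : Multiset (PadicAlgCl 2), (∀ z ∈ m, ‖z‖ ^ 11 = (1 / 2 : ℝ) ^ s) →
      ‖m.prod‖ ^ 11 = ((1 / 2 : ℝ) ^ s) ^ m.card := by
    intro m
    induction m using Multiset.induction_on with
    | empty => intro _; simp
    | cons a m ih =>
      intro h
      rw [Multiset.prod_cons, norm_mul, mul_pow, h a (Multiset.mem_cons_self a m),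
        ih fun z hz => h z (Multiset.mem_cons_of_mem hz), Multiset.card_cons, pow_succ, mul_comm]
  have h1 := hprod G.roots hroots
  have h2 : ‖g.coeff 0‖ ^ 11 = (1 / 2 : ℝ) ^ (s * g.natDegree) := by
    rw [← norm_coe, ← Polynomial.coeff_map, ← hG, h0, norm_mul, norm_pow, norm_neg, norm_one,
      one_pow, one_mul, h1, hcard, hdeg, pow_mul]
  exact ((Nat.Prime.dvd_mul (by norm_num)).1 (dvd_of_norm h2)).resolve_left hs

theorem slope_irreducible {s : ℕ} (hs : ¬ 11 ∣ s) {χ : Polynomial ℚ_[2]} (hχ : Slope s χ) :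
    Irreducible χ := by
  rw [hχ.monic.irreducible_iff_natDegree]
  constructor
  · intro h
    have := hχ.deg
    rw [h, Polynomial.natDegree_one] at this
    omega
  · intro f g hf hg hfg
    have h1 := dvd_deg hs hχ f hf ⟨g, hfg.symm⟩
    have h2 := dvd_deg hs hχ g hg ⟨f, by rw [mul_comm, hfg]⟩
    have h3 : f.natDegree + g.natDegree = 11 := by
      rw [← hf.natDegree_mul hg, hfg, hχ.deg]
    omega

private lemma near {s : ℕ} (hs : ¬ 11 ∣ s) {χ : Polynomial ℚ_[2]} (hχ : Slope s χ)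
    (z : PadicAlgCl 2) (hz : Polynomial.aeval z χ = 0) :
    ‖z ^ 11 + algebraMap ℚ_[2] (PadicAlgCl 2) (χ.coeff 0)‖ < (1 / 2 : ℝ) ^ s := by
  have hq : 0 < (1 / 2 : ℝ) ^ s := by positivity
  have he := root_eq hχ z hz
  have hr := slope_root hχ z hz
  have h1 : ‖∑ i ∈ Finset.range 10,
      algebraMap ℚ_[2] (PadicAlgCl 2) (χ.coeff (i + 1)) * z ^ (i + 1)‖ < (1 / 2 : ℝ) ^ s := by
    refine norm_sum_lt _ _ hq fun i hi => ?_
    have hi' : i + 1 < 11 := by have := Finset.mem_range.1 hi; omega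
    rw [norm_mul, norm_pow, norm_coe]
    refine lt_of_pow_lt_pow_left₀ 11 hq.le ?_
    rw [mul_pow, ← pow_mul, mul_comm (i + 1) 11, pow_mul, hr, ← pow_mul, ← pow_mul]
    have h2 : ‖χ.coeff (i + 1)‖ ^ 11 < (1 / 2 : ℝ) ^ (s * (11 - (i + 1))) := by
      refine lt_of_le_of_ne (hχ.le (i + 1) hi') fun h => ?_
      rcases (Nat.Prime.dvd_mul (by norm_num)).1 (dvd_of_norm h) with h | h
      · exact hs h
      · have := Nat.le_of_dvd (by omega) h
        omega
    calc ‖χ.coeff (i + 1)‖ ^ 11 * (1 / 2 : ℝ) ^ (s * (i + 1))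
        < (1 / 2 : ℝ) ^ (s * (11 - (i + 1))) * (1 / 2 : ℝ) ^ (s * (i + 1)) :=
          mul_lt_mul_of_pos_right h2 (by positivity)
      _ = (1 / 2 : ℝ) ^ (s * 11) := by
          rw [← pow_add, ← mul_add]
          congr 2
          omega
  have h3 : z ^ 11 + algebraMap ℚ_[2] (PadicAlgCl 2) (χ.coeff 0) = -∑ i ∈ Finset.range 10,
      algebraMap ℚ_[2] (PadicAlgCl 2) (χ.coeff (i + 1)) * z ^ (i + 1) := by
    linear_combination he
  rw [h3, norm_neg]
  exact h1

private lemma eq_one_of_odd (u : PadicAlgCl 2) (hu : ‖u - 1‖ < 1) (n : ℕ) (hn : Odd n)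
    (h : u ^ n = 1) : u = 1 := by
  have hu1 : ‖u‖ ≤ 1 := by
    have h1 : u = (u - 1) + 1 := by ring
    rw [h1]
    refine (IsUltrametricDist.norm_add_le_max _ _).trans (max_le hu.le ?_)
    rw [norm_one]
  have hk : ∀ k : ℕ, ‖u ^ k - 1‖ < 1 := by
    intro k
    induction k with
    | zero => simp
    | succ k ih =>
      have h1 : u ^ (k + 1) - 1 = u * (u ^ k - 1) + (u - 1) := by ring
      rw [h1]
      refine (IsUltrametricDist.norm_add_le_max _ _).trans_lt (max_lt ?_ hu)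
      rw [norm_mul]
      exact (mul_le_of_le_one_left (norm_nonneg _) hu1).trans_lt ih
  by_contra hne
  have h1 : (∑ k ∈ Finset.range n, u ^ k) * (u - 1) = 0 := by rw [geom_sum_mul, h, sub_self]
  have h2 : ∑ k ∈ Finset.range n, u ^ k = 0 :=
    (mul_eq_zero.1 h1).resolve_right (sub_ne_zero.2 hne)
  have h3 : ∑ k ∈ Finset.range n, (u ^ k - 1) = -(n : PadicAlgCl 2) := by
    rw [Finset.sum_sub_distrib, h2]
    simp
  have h4 : ‖∑ k ∈ Finset.range n, (u ^ k - 1)‖ < 1 := norm_sum_lt _ _ one_pos fun k _ => hk k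
  have h5 : ‖(n : PadicAlgCl 2)‖ = 1 := by
    rw [← map_natCast (algebraMap ℚ_[2] (PadicAlgCl 2)), norm_coe, Padic.norm_natCast_eq_one_iff]
    exact (Nat.coprime_two_left).2 hn
  rw [h3, norm_neg, h5] at h4
  exact lt_irrefl _ h4

private lemma sum_mem {χ : Polynomial ℚ_[2]} (μ : Fin 11 → PadicAlgCl 2)
    (hμ : Function.Injective μ)
    (hroot : ∀ z : PadicAlgCl 2, Polynomial.aeval z χ = 0 ↔ ∃ i, μ i = z) (M : ℕ) :
    ∃ c : ℚ_[2], algebraMap ℚ_[2] (PadicAlgCl 2) c = ∑ i, μ i ^ M := by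
  have hgal : IsGalois ℚ_[2] (PadicAlgCl 2) := inferInstance
  have h1 : (∑ i, μ i ^ M) ∈ (⊥ : IntermediateField ℚ_[2] (PadicAlgCl 2)) := by
    rw [InfiniteGalois.mem_bot_iff_fixed]
    intro σ
    have h2 : ∀ i, ∃ j, μ j = σ (μ i) := by
      intro i
      rw [← hroot, Polynomial.aeval_algHom_apply, (hroot (μ i)).2 ⟨i, rfl⟩, map_zero]
    choose π hπ using h2
    have hinj : Function.Injective π := by
      intro i j hij
      apply hμ
      apply σ.injective
      rw [← hπ i, ← hπ j, hij]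
    have hbij : Function.Bijective π := Finite.injective_iff_bijective.1 hinj
    rw [map_sum]
    have h3 : ∀ i, σ (μ i ^ M) = μ (π i) ^ M := fun i => by rw [map_pow, hπ i]
    rw [Finset.sum_congr rfl fun i _ => h3 i]
    exact (Equiv.ofBijective π hbij).sum_comp fun i => μ i ^ M
  obtain ⟨c, hc⟩ := IntermediateField.mem_bot.1 h1
  exact ⟨c, hc⟩

private lemma dvd_pow_sub {χ : Polynomial ℚ_[2]} (hirr : Irreducible χ) (hm : χ.Monic)
    (z : PadicAlgCl 2) (hz : Polynomial.aeval z χ = 0) (M : ℕ) (c : ℚ_[2])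
    (h : z ^ M = algebraMap ℚ_[2] (PadicAlgCl 2) c) :
    χ ∣ Polynomial.X ^ M - Polynomial.C c := by
  rw [minpoly.eq_of_irreducible_of_monic hirr hz hm]
  apply minpoly.dvd
  rw [map_sub, map_pow, Polynomial.aeval_X, Polynomial.aeval_C, h, sub_self]

theorem slope_ratio {s : ℕ} (hs : ¬ 11 ∣ s) {χ : Polynomial ℚ_[2]} (hχ : Slope s χ)
    (h10 : χ.coeff 10 ≠ 0) (μ : Fin 11 → PadicAlgCl 2) (hμ : Function.Injective μ)
    (hroot : ∀ z : PadicAlgCl 2, Polynomial.aeval z χ = 0 ↔ ∃ i, μ i = z) (N : ℕ) (hN : 0 < N) :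
    ¬ ∀ i j, μ i ^ N = μ j ^ N := by
  classical
  intro hall
  have hirr := slope_irreducible hs hχ
  have hr : ∀ i, Polynomial.aeval (μ i) χ = 0 := fun i => (hroot _).2 ⟨i, rfl⟩
  have hq : 0 < (1 / 2 : ℝ) ^ s := by positivity
  have hnorm : ∀ i, ‖μ i ^ 11‖ = (1 / 2 : ℝ) ^ s := fun i => by
    rw [norm_pow, slope_root hχ _ (hr i)]
  have hne : ∀ i, μ i ^ 11 ≠ 0 := fun i h => by
    have := hnorm i
    rw [h, norm_zero] at this
    exact hq.ne this
  have hclose : ∀ i j, ‖μ i ^ 11 / μ j ^ 11 - 1‖ < 1 := by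
    intro i j
    have h1 : μ i ^ 11 / μ j ^ 11 - 1 = (μ i ^ 11 - μ j ^ 11) / μ j ^ 11 := by
      rw [sub_div, div_self (hne j)]
    rw [h1, norm_div, hnorm j, div_lt_one hq]
    have h2 : μ i ^ 11 - μ j ^ 11 = (μ i ^ 11 + algebraMap ℚ_[2] (PadicAlgCl 2) (χ.coeff 0)) +
        -(μ j ^ 11 + algebraMap ℚ_[2] (PadicAlgCl 2) (χ.coeff 0)) := by ring
    rw [h2]
    refine (IsUltrametricDist.norm_add_le_max _ _).trans_lt (max_lt (near hs hχ _ (hr i)) ?_)
    rw [norm_neg]
    exact near hs hχ _ (hr j)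
  have hspread : ∀ (M : ℕ) (c : ℚ_[2]), μ 0 ^ M = algebraMap ℚ_[2] (PadicAlgCl 2) c → ∀ i,
      μ i ^ M = algebraMap ℚ_[2] (PadicAlgCl 2) c := by
    intro M c h i
    obtain ⟨k, hk⟩ := dvd_pow_sub hirr hχ.monic (μ 0) (hr 0) M c h
    have h1 := congrArg (Polynomial.aeval (μ i)) hk
    rw [map_mul, hr i, zero_mul, map_sub, map_pow, Polynomial.aeval_X, Polynomial.aeval_C] at h1
    exact sub_eq_zero.1 h1
  have claim : ∀ n : ℕ, 0 < n → (∀ i j, (μ i ^ 11) ^ n = (μ j ^ 11) ^ n) →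
      ∀ i j, μ i ^ 11 = μ j ^ 11 := by
    intro n
    induction n using Nat.strong_induction_on with
    | _ n ih =>
      intro hn h
      rcases Nat.even_or_odd n with he | ho
      · obtain ⟨m, rfl⟩ := he
        have hm : 0 < m := by omega
        refine ih m (by omega) hm ?_
        set w : Fin 11 → PadicAlgCl 2 := fun i => μ i ^ (11 * m) with hw
        have hsq : ∀ i, w i = w 0 ∨ w i = -w 0 := by
          intro i
          have h1 := h i 0
          have h2 : (w i) ^ 2 = (w 0) ^ 2 := by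
            simp only [hw]
            rw [← pow_mul, ← pow_mul]
            rw [← pow_mul, ← pow_mul] at h1
            rw [show 11 * m * 2 = 11 * (m + m) by ring]
            exact h1
          exact sq_eq_sq_iff_eq_or_eq_neg.1 h2
        set b : Fin 11 → ℤ := fun i => if w i = w 0 then 0 else 1 with hb
        have hwb : ∀ i, w i = ((1 - 2 * b i : ℤ) : PadicAlgCl 2) * w 0 := by
          intro i
          by_cases hi : w i = w 0
          · simp [hb, hi]
          · have h1 := (hsq i).resolve_left hi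
            simp only [hb, if_neg hi]
            rw [h1]
            push_cast
            ring
        obtain ⟨c, hc⟩ := sum_mem μ hμ hroot (11 * m)
        have hsum : algebraMap ℚ_[2] (PadicAlgCl 2) c =
            ((11 - 2 * ∑ i, b i : ℤ) : PadicAlgCl 2) * w 0 := by
          rw [hc]
          calc ∑ i, μ i ^ (11 * m) = ∑ i, ((1 - 2 * b i : ℤ) : PadicAlgCl 2) * w 0 :=
                Finset.sum_congr rfl fun i _ => hwb i
            _ = ((∑ i, (1 - 2 * b i) : ℤ) : PadicAlgCl 2) * w 0 := by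
                rw [← Finset.sum_mul, Int.cast_sum]
            _ = _ := by
                congr 2
                rw [Finset.sum_sub_distrib, ← Finset.mul_sum]
                simp
        set k : ℤ := 11 - 2 * ∑ i, b i with hk
        have hk0 : k ≠ 0 := by omega
        have hk0' : (k : PadicAlgCl 2) ≠ 0 := Int.cast_ne_zero.2 hk0
        have hw0 : μ 0 ^ (11 * m) = algebraMap ℚ_[2] (PadicAlgCl 2) (c / k) := by
          rw [map_div₀, hsum, map_intCast]
          change w 0 = _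
          field_simp
        have hall' := hspread (11 * m) (c / k) hw0
        intro i j
        rw [← pow_mul, ← pow_mul, hall' i, hall' j]
      · intro i j
        have h1 : (μ i ^ 11 / μ j ^ 11) ^ n = 1 := by
          rw [div_pow, h i j, div_self (pow_ne_zero _ (hne j))]
        have h2 := eq_one_of_odd _ (hclose i j) n ho h1
        rwa [div_eq_one_iff_eq (hne j)] at h2
  have heq : ∀ i j, μ i ^ 11 = μ j ^ 11 := by
    refine claim N hN fun i j => ?_
    rw [← pow_mul, ← pow_mul, mul_comm 11 N, pow_mul, pow_mul, hall i j]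
  obtain ⟨c, hc⟩ := sum_mem μ hμ hroot 11
  have h1 : algebraMap ℚ_[2] (PadicAlgCl 2) c = 11 * μ 0 ^ 11 := by
    rw [hc, Finset.sum_congr rfl fun i _ => heq i 0]
    simp
  have h2 : μ 0 ^ 11 = algebraMap ℚ_[2] (PadicAlgCl 2) (c / 11) := by
    rw [map_div₀, h1, map_ofNat, mul_div_cancel_left₀]
    norm_num
  have h3 := dvd_pow_sub hirr hχ.monic (μ 0) (hr 0) 11 _ h2
  have h4 : (Polynomial.X ^ 11 - Polynomial.C (c / 11) : Polynomial ℚ_[2]).Monic :=
    Polynomial.monic_X_pow_sub_C _ (by norm_num)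
  have h5 := Polynomial.eq_of_monic_of_dvd_of_natDegree_le hχ.monic h4 h3
    (by rw [Polynomial.natDegree_X_pow_sub_C, hχ.deg])
  apply h10
  rw [← h5, Polynomial.coeff_sub, Polynomial.coeff_X_pow, Polynomial.coeff_C]
  norm_num

end Pool.Agent.Helper57.CQ
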